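import Mathlib

/-!
# The multipliers `exp (-α k ^ p)` with `p > 2` and small `α` are not zero-sector reducing

For `f = (z - 1) ^ 3` all zeros lie in `S(0)`.  If `T` were zero-sector reducing then all zeros of
`T f = γ₃ z³ - 3 γ₂ z² + 3 γ₁ z - γ₀` would be real, hence
`(γ₀ γ₃ - γ₁ γ₂)² ≤ 4 (γ₁² - γ₀ γ₂) (γ₂² - γ₁ γ₃)`.  Dividing by `α²` and letting `α → 0` both sides
converge, and the difference of the limits is `(3 ^ p - 3 * 2 ^ p + 3) ^ 2 > 0`.
-/

open Polynomial Filter Topology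

namespace Pool.Agent.Results.MP_f0d684_an.SmallAlphaFails

/-- The closed sector `S(θ)`. -/
def sector (θ : ℝ) : Set ℂ := {z | |z.arg| ≤ θ ∨ z = 0}

/-- All complex zeros of `f` lie in `S`. -/
def ZerosIn (f : ℝ[X]) (S : Set ℂ) : Prop := ∀ z : ℂ, aeval z f = 0 → z ∈ S

/-- The diagonal operator `z ^ k ↦ γ k * z ^ k`. -/
noncomputable def diagOp (γ : ℕ → ℝ) (f : ℝ[X]) : ℝ[X] :=
  f.sum fun k a => monomial k (γ k * a)

/-- Zero-sector reducing operators. -/
def SectorReducing (T : ℝ[X] → ℝ[X]) : Prop :=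
  ∀ θ : ℝ, 0 < θ → θ < Real.pi / 2 → ∃ γ : ℝ, 0 ≤ γ ∧ γ < θ ∧
    ∀ f : ℝ[X], f ≠ 0 → ZerosIn f (sector θ) → ZerosIn (T f) (sector γ)

private lemma coeff_diagOp (γ : ℕ → ℝ) (f : ℝ[X]) (k : ℕ) :
    (diagOp γ f).coeff k = γ k * f.coeff k := by
  unfold diagOp
  rw [Polynomial.sum_def, finsetSum_coeff]
  simp only [coeff_monomial]
  rw [Finset.sum_ite_eq' f.support k]
  split_ifs with h
  · rfl
  · rw [notMem_support_iff.mp h, mul_zero]

/-- A real cubic with only real zeros satisfies the discriminant inequality. -/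
private lemma cubic_ineq (a b c d : ℝ) (ha : a ≠ 0)
    (h : ∀ z : ℂ, aeval z (C a * X ^ 3 - C (3 * b) * X ^ 2 + C (3 * c) * X - C d : ℝ[X]) = 0 →
      z.im = 0) :
    (a * d - b * c) ^ 2 ≤ 4 * (c ^ 2 - b * d) * (b ^ 2 - a * c) := by
  set P : ℝ[X] := C a * X ^ 3 - C (3 * b) * X ^ 2 + C (3 * c) * X - C d with hP
  have hPform : P = C a * X ^ 3 + C (-(3 * b)) * X ^ 2 + C (3 * c) * X + C (-d) := by
    rw [hP]
    simp only [C_neg]
    ring
  have hdeg : P.natDegree = 3 := by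
    rw [hPform]
    exact natDegree_cubic ha
  set PC : ℂ[X] := P.map (algebraMap ℝ ℂ) with hPC
  have hs : PC.Splits := IsAlgClosed.splits PC
  have hcard : PC.roots.card = 3 := by
    rw [← hs.natDegree_eq_card_roots, hPC, natDegree_map, hdeg]
  obtain ⟨x, y, w, hxyw⟩ := Multiset.card_eq_three.mp hcard
  have hreal : ∀ u ∈ PC.roots, ((u.re : ℝ) : ℂ) = u := by
    intro u hu
    have h0 : aeval u P = 0 := by
      have := (mem_roots'.mp hu).2
      rwa [IsRoot, hPC, eval_map_algebraMap] at this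
    have := h u h0
    apply Complex.ext <;> simp [this]
  have hx := hreal x (by rw [hxyw]; simp)
  have hy := hreal y (by rw [hxyw]; simp)
  have hw := hreal w (by rw [hxyw]; simp)
  have hfac : PC = C (a : ℂ) * ((X - C x) * (X - C y) * (X - C w)) := by
    have h1 := hs.eq_prod_roots
    have hlc : PC.leadingCoeff = (a : ℂ) := by
      rw [hPC, leadingCoeff_map, hPform, leadingCoeff_cubic ha]
      rfl
    rw [hxyw, hlc] at h1
    rw [h1]
    simp [mul_assoc]
  have hev : ∀ t : ℝ, a * t ^ 3 - 3 * b * t ^ 2 + 3 * c * t - d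
      = a * ((t - x.re) * (t - y.re) * (t - w.re)) := by
    intro t
    have h1 : PC.eval (t : ℂ) = (a : ℂ) * ((t - x) * (t - y) * (t - w)) := by
      rw [hfac]; simp
    rw [hPC, hP] at h1
    simp only [Polynomial.map_sub, Polynomial.map_add, Polynomial.map_mul, Polynomial.map_pow,
      map_C, map_X, eval_sub, eval_add, eval_mul, eval_C, eval_pow, eval_X] at h1
    rw [← hx, ← hy, ← hw] at h1
    have h2 : (((a * t ^ 3 - 3 * b * t ^ 2 + 3 * c * t - d : ℝ)) : ℂ)
        = ((a * ((t - x.re) * (t - y.re) * (t - w.re)) : ℝ) : ℂ) := by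
      push_cast
      simpa using h1
    exact_mod_cast h2
  have e0 := hev 0
  have e1 := hev 1
  have e2 := hev (-1)
  have hb : 3 * b = a * (x.re + y.re + w.re) := by linarith
  have hc : 3 * c = a * (x.re * y.re + y.re * w.re + w.re * x.re) := by linarith
  have hd : d = a * (x.re * y.re * w.re) := by linarith
  have hb' : b = a * (x.re + y.re + w.re) / 3 := by linarith
  have hc' : c = a * (x.re * y.re + y.re * w.re + w.re * x.re) / 3 := by linarith
  have key : 4 * (c ^ 2 - b * d) * (b ^ 2 - a * c) - (a * d - b * c) ^ 2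
      = a ^ 4 * ((x.re - y.re) * (y.re - w.re) * (w.re - x.re)) ^ 2 / 27 := by
    rw [hb', hc', hd]
    ring
  have : 0 ≤ a ^ 4 * ((x.re - y.re) * (y.re - w.re) * (w.re - x.re)) ^ 2 / 27 := by positivity
  linarith

private lemma slope_limit (u v : ℝ) :
    Tendsto (fun α : ℝ => (Real.exp (-α * u) - Real.exp (-α * v)) / α) (𝓝[>] 0) (𝓝 (v - u)) := by
  have h1 : ∀ u : ℝ, HasDerivAt (fun α : ℝ => Real.exp (-α * u)) (-u) 0 := by
    intro u
    have := ((hasDerivAt_neg' (0 : ℝ)).mul_const u).exp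
    simpa using this
  have h2 := ((h1 u).sub (h1 v)).tendsto_slope_zero_right
  have h3 : -u - -v = v - u := by ring
  rw [h3] at h2
  refine h2.congr' ?_
  filter_upwards [self_mem_nhdsWithin] with α hα
  simp
  ring

/-- The third difference of `k ↦ k ^ p` at `0` is positive for `p > 2`. -/
private lemma third_diff_pos (p : ℝ) (hp : 2 < p) :
    0 < (3 : ℝ) ^ p - 3 * (2 : ℝ) ^ p + 3 := by
  -- with `q = p - 2 > 0`: `9 * 3 ^ q - 12 * 2 ^ q + 3 > 0`
  obtain ⟨q, hq, rfl⟩ : ∃ q : ℝ, 0 < q ∧ p = 2 + q := ⟨p - 2, by linarith, by ring⟩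
  rw [Real.rpow_add (by norm_num), Real.rpow_add (by norm_num)]
  have h3 : (3 : ℝ) ^ q = (2 : ℝ) ^ q * (3 / 2 : ℝ) ^ q := by
    rw [← Real.mul_rpow (by norm_num) (by norm_num)]
    norm_num
  have h2 : (2 : ℝ) ^ (2 : ℝ) = 4 := by norm_num
  have h9 : (3 : ℝ) ^ (2 : ℝ) = 9 := by norm_num
  rw [h2, h9, h3]
  -- `x = 2 ^ q > 1`, `y = (3/2) ^ q > x ^ (1/2)`
  have hx : 1 < (2 : ℝ) ^ q := Real.one_lt_rpow (by norm_num) hq
  have hy : (2 : ℝ) ^ q < ((3 / 2 : ℝ) ^ q) ^ 2 := by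
    rw [← Real.rpow_natCast ((3 / 2 : ℝ) ^ q) 2, ← Real.rpow_mul (by norm_num)]
    have : (3 / 2 : ℝ) ^ (q * ((2 : ℕ) : ℝ)) = (9 / 4 : ℝ) ^ q := by
      rw [mul_comm, Real.rpow_mul (by norm_num)]
      norm_num
    rw [this]
    exact Real.rpow_lt_rpow (by norm_num) (by norm_num) hq
  set x := (2 : ℝ) ^ q
  set y := (3 / 2 : ℝ) ^ q with hyd
  have hy0 : 0 < y := Real.rpow_pos_of_pos (by norm_num) q
  have hy1 : 1 < y := Real.one_lt_rpow (by norm_num) hq
  by_cases hy2 : 4 / 3 ≤ y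
  · nlinarith
  · push Not at hy2
    -- `9 x y - 12 x + 3 = 3 - x (12 - 9 y)` and `x < y ^ 2`
    have h5 : 0 < 12 - 9 * y := by linarith
    have h6 : x * (12 - 9 * y) < y ^ 2 * (12 - 9 * y) := mul_lt_mul_of_pos_right hy h5
    nlinarith [mul_pos (sub_pos.mpr hy1) (sub_pos.mpr hy1), mul_pos hy0 (sub_pos.mpr hy1)]

private lemma diagOp_cube (γ : ℕ → ℝ) :
    diagOp γ ((X - 1) ^ 3)
      = C (γ 3) * X ^ 3 - C (3 * γ 2) * X ^ 2 + C (3 * γ 1) * X - C (γ 0) := by
  have h : ((X - 1 : ℝ[X]) ^ 3) = C 1 * X ^ 3 + C (-3) * X ^ 2 + C 3 * X + C (-1) := by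
    simp only [C_neg, map_one, map_ofNat]
    ring
  have h' : C (γ 3) * X ^ 3 - C (3 * γ 2) * X ^ 2 + C (3 * γ 1) * X - C (γ 0)
      = C (γ 3) * X ^ 3 + C (-(3 * γ 2)) * X ^ 2 + C (3 * γ 1) * X + C (-γ 0) := by
    rw [C_neg, C_neg]
    ring
  ext k
  rw [coeff_diagOp, h, h']
  simp only [coeff_add, coeff_C_mul, coeff_X_pow, coeff_X, coeff_C]
  rcases k with _ | _ | _ | _ | k
  · norm_num
  · norm_num
    ring
  · norm_num
    ring
  · norm_num
  · have h3 : ¬ (k + 1 + 1 + 1 + 1 = 3) := by omega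
    have h2 : ¬ (k + 1 + 1 + 1 + 1 = 2) := by omega
    norm_num [h3, h2]

/-- For every real `p > 2` there is `α₀ > 0` such that for all `0 < α < α₀` the diagonal operator
with multipliers `exp (-α k ^ p)` is not zero-sector reducing. -/
theorem result : ∀ p : ℝ, 2 < p → ∃ α₀ : ℝ, 0 < α₀ ∧ ∀ α : ℝ, 0 < α → α < α₀ →
    ¬ SectorReducing (diagOp fun k => Real.exp (-α * (k : ℝ) ^ p)) := by
  intro p hp
  set s : ℝ := (2 : ℝ) ^ p with hs
  set t : ℝ := (3 : ℝ) ^ p with ht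
  have hc : 0 < t - 3 * s + 3 := third_diff_pos p hp
  -- limits of the scaled terms
  have l1 := slope_limit (1 + s) t
  have l2 := slope_limit 2 s
  have l3 := slope_limit (2 * s) (1 + t)
  have lim : Tendsto (fun α : ℝ =>
      ((Real.exp (-α * (1 + s)) - Real.exp (-α * t)) / α) ^ 2
        - 4 * ((Real.exp (-α * 2) - Real.exp (-α * s)) / α)
          * ((Real.exp (-α * (2 * s)) - Real.exp (-α * (1 + t))) / α)) (𝓝[>] 0)
      (𝓝 ((t - (1 + s)) ^ 2 - 4 * (s - 2) * (1 + t - 2 * s))) :=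
    (l1.pow 2).sub ((l2.const_mul 4).mul l3)
  have hpos : 0 < (t - (1 + s)) ^ 2 - 4 * (s - 2) * (1 + t - 2 * s) := by
    have : (t - (1 + s)) ^ 2 - 4 * (s - 2) * (1 + t - 2 * s) = (t - 3 * s + 3) ^ 2 := by ring
    rw [this]
    positivity
  have hev := lim.eventually (lt_mem_nhds hpos)
  rw [eventually_nhdsWithin_iff, Metric.eventually_nhds_iff] at hev
  obtain ⟨α₀, hα₀, hball⟩ := hev
  refine ⟨α₀, hα₀, fun α hα hαlt hT => ?_⟩
  have hineq := hball (y := α) (by rw [Real.dist_eq, sub_zero, abs_of_pos hα]; exact hαlt) hα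
  -- all zeros of `T ((z - 1) ^ 3)` are real
  have hreal : ∀ z : ℂ,
      aeval z (diagOp (fun k => Real.exp (-α * (k : ℝ) ^ p)) ((X - 1) ^ 3)) = 0 → z.im = 0 := by
    intro z hz
    by_contra hne
    have hz0 : z ≠ 0 := by
      rintro rfl
      simp at hne
    have harg : 0 < |z.arg| := by
      rw [abs_pos]
      intro h0
      exact hne (Complex.arg_eq_zero_iff.mp h0).2
    set θ : ℝ := min |z.arg| 1 with hθ
    have hθ0 : 0 < θ := lt_min harg one_pos
    have hθ1 : θ < Real.pi / 2 := by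
      have := Real.pi_gt_three
      have h1 : θ ≤ 1 := min_le_right _ _
      linarith
    obtain ⟨γ, -, hγθ, hγ⟩ := hT θ hθ0 hθ1
    have hne' : ((X - 1 : ℝ[X]) ^ 3) ≠ 0 := by
      apply pow_ne_zero
      have := X_sub_C_ne_zero (1 : ℝ)
      simpa using this
    have hin : ZerosIn ((X - 1 : ℝ[X]) ^ 3) (sector θ) := by
      intro u hu
      have : u = 1 := by
        have h1 : (u - 1) ^ 3 = 0 := by simpa using hu
        have h2 := pow_eq_zero_iff (three_ne_zero) |>.mp h1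
        exact sub_eq_zero.mp h2
      left
      rw [this]
      simpa using hθ0.le
    rcases hγ _ hne' hin z hz with h1 | h1
    · have : θ ≤ |z.arg| := min_le_left _ _
      linarith
    · exact hz0 h1
  have e0 : Real.exp (-α * ((0 : ℕ) : ℝ) ^ p) = 1 := by
    rw [Nat.cast_zero, Real.zero_rpow (by linarith)]
    simp
  have e1 : Real.exp (-α * ((1 : ℕ) : ℝ) ^ p) = Real.exp (-α) := by simp
  have e2 : Real.exp (-α * ((2 : ℕ) : ℝ) ^ p) = Real.exp (-α * s) := by simp [hs]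
  have e3 : Real.exp (-α * ((3 : ℕ) : ℝ) ^ p) = Real.exp (-α * t) := by simp [ht]
  rw [diagOp_cube] at hreal
  simp only [e0, e1, e2, e3] at hreal
  have hcub := cubic_ineq _ _ _ _ (Real.exp_pos _).ne' hreal
  have x1 : Real.exp (-α * (1 + s)) = Real.exp (-α * s) * Real.exp (-α) := by
    rw [← Real.exp_add]; congr 1; ring
  have x2 : Real.exp (-α * 2) = Real.exp (-α) ^ 2 := by
    rw [← Real.exp_nat_mul]; congr 1; push_cast; ring
  have x3 : Real.exp (-α * (2 * s)) = Real.exp (-α * s) ^ 2 := by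
    rw [← Real.exp_nat_mul]; congr 1; push_cast; ring
  have x4 : Real.exp (-α * (1 + t)) = Real.exp (-α * t) * Real.exp (-α) := by
    rw [← Real.exp_add]; congr 1; ring
  rw [x1, x2, x3, x4] at hineq
  have hcomb : ((Real.exp (-α * s) * Real.exp (-α) - Real.exp (-α * t)) / α) ^ 2
        - 4 * ((Real.exp (-α) ^ 2 - Real.exp (-α * s)) / α)
          * ((Real.exp (-α * s) ^ 2 - Real.exp (-α * t) * Real.exp (-α)) / α)
      = ((Real.exp (-α * t) * 1 - Real.exp (-α * s) * Real.exp (-α)) ^ 2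
        - 4 * (Real.exp (-α) ^ 2 - Real.exp (-α * s) * 1)
          * (Real.exp (-α * s) ^ 2 - Real.exp (-α * t) * Real.exp (-α))) / α ^ 2 := by
    field_simp
    ring
  rw [hcomb] at hineq
  have hneg : ((Real.exp (-α * t) * 1 - Real.exp (-α * s) * Real.exp (-α)) ^ 2
        - 4 * (Real.exp (-α) ^ 2 - Real.exp (-α * s) * 1)
          * (Real.exp (-α * s) ^ 2 - Real.exp (-α * t) * Real.exp (-α))) / α ^ 2 ≤ 0 :=
    div_nonpos_of_nonpos_of_nonneg (by linarith) (by positivity)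
  linarith

end Pool.Agent.Results.MP_f0d684_an.SmallAlphaFails
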